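import Pool.Agent.Q55.ZeroOneDefs
import Pool.Agent.Y129.GDefs

/-!
# Actions of a Galois group on a Weil cohomology theory: definitions
-/

open CategoryTheory AlgebraicGeometry

open scoped ENNReal

universe u v w

namespace Pool.Agent.Q55

section Alg

variable {Γ : Type w} [Group Γ] {K : Type*} [Field K] {A : Type*} [Ring A] [Algebra K A]
  {B : Type*} [Ring B] [Algebra K B]

/-- The property `p` holds for all elements of a subgroup of finite index. -/
def Virtually (p : Γ → Prop) : Prop :=
  ∃ Δ : Subgroup Γ, Δ.FiniteIndex ∧ ∀ g ∈ Δ, p g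

variable (Γ K A) in
/-- An action of a subgroup `dom` of the group `Γ` on the algebra `A` by automorphisms (the
automorphisms `act g` for `g` outside of `dom` have no meaning and are never used). -/
structure SubAction where
  /-- the subgroup which acts -/
  dom : Subgroup Γ
  /-- the action -/
  act : Γ → (A ≃ₐ[K] A)
  act_mul : ∀ g ∈ dom, ∀ h ∈ dom, act (g * h) = act g * act h

/-- The element `g` multiplies `c` by `χ g ^ j` (if it acts on `A`). -/
def SubAction.Twists (ρ : SubAction Γ K A) (χ : Γ →* Kˣ) (j : ℕ) (c : A) (g : Γ) : Prop :=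
  g ∈ ρ.dom → ρ.act g c = (χ g : K) ^ j • c

/-- The action of `g` commutes with the homomorphism `f` (if it acts on `A` and `B`). -/
def SubAction.Commutes (ρ : SubAction Γ K A) (σ : SubAction Γ K B) (f : B →ₐ[K] A) (g : Γ) :
    Prop :=
  g ∈ ρ.dom → g ∈ σ.dom → ∀ b : B, f (σ.act g b) = ρ.act g (f b)

/-- The subgroup which acts has finite index, it preserves the subspaces `gr i`, and `g` multiplies
the linear form `tr` by `χ g ^ n`. -/
structure SubAction.IsGalois (ρ : SubAction Γ K A) (χ : Γ →* Kˣ) (gr : ℕ → Submodule K A)
    (n : ℕ) (tr : A →ₗ[K] K) : Prop where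
  finiteIndex : ρ.dom.FiniteIndex
  gr_mem : ∀ g ∈ ρ.dom, ∀ i, ∀ a ∈ gr i, ρ.act g a ∈ gr i
  tr_act : ∀ g ∈ ρ.dom, ∀ a, tr (ρ.act g a) = (χ g : K) ^ n * tr a

end Alg

open Pool.Agent.H914 Pool.Agent.H914.VarClass Pool.Agent.H914.VarClass.Obj
  Pool.Agent.H914.WeilCohomology
open Pool.Agent.Y133.Half (cycRank dimOf)
open Pool.Agent.Y129 (pw genBy)

variable {k : Type u} [Field k] {𝒱 : VarClass k} {ops : CycleOps 𝒱}

/-- The formal properties of the action of the Galois group `Γ` of a number field on the cohomology
of the varieties over the algebraic closure. Every such variety `X` is defined over a finite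
extension of the number field, and the Galois group of this extension, which has finite index in
`Γ`, acts on `H(X)` by automorphisms of the graded algebra, and on the orientation by `χ ^ dim X`.
A morphism and a cycle are defined over a finite extension of the field, so the pull-backs commute
with the elements of a subgroup of finite index, and a subgroup of finite index acts on the class of
a cycle of codimension `j` by `χ ^ j`. -/
structure GaloisAction (W : WeilCohomology.{u, v} ops) (Γ : Type w) [Group Γ] where
  /-- the inverse of the cyclotomic character -/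
  χ : Γ →* W.Kˣ
  /-- the action on the cohomology of a variety -/
  ρ : ∀ X : 𝒱.Obj, SubAction Γ W.K (W.H X)
  isGalois : ∀ X, (ρ X).IsGalois χ (W.gr X) X.dim (W.tr X)
  map_act : ∀ {X Y : 𝒱.Obj} (f : X ⟶ Y), Virtually ((ρ X).Commutes (ρ Y) (W.map f))
  cl_act : ∀ X j z, X.IsCyc j z → Virtually ((ρ X).Twists χ j (W.cl X z))

variable {W : WeilCohomology.{u, v} ops} {Γ : Type w} [Group Γ]

/-- The Tate classes: the classes in `H^(2 j)(X)` which are fixed, up to the twist, by a subgroup
of finite index of the Galois group. -/
def IsTate (G : GaloisAction W Γ) (X : 𝒱.Obj) (j : ℕ) (c : W.H X) : Prop :=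
  c ∈ W.gr X (2 * j) ∧ Virtually ((G.ρ X).Twists G.χ j c)

/-- The dimension of the space spanned by the Tate classes of all degrees on `X`. -/
noncomputable def tateDim (G : GaloisAction W Γ) (X : 𝒱.Obj) : ℕ :=
  dimOf W {c | ∃ j, IsTate G X j c}

/-- The quotient of the dimension of the space of the Tate classes on the product of `n + 1` copies
of `X` and of the rank of the group of the cycles on it modulo numerical equivalence. -/
noncomputable def tateRatio (G : GaloisAction W Γ) (X : 𝒱.Obj) (n : ℕ) : ℝ≥0∞ :=
  (tateDim G (pw X n) : ℝ≥0∞) / cycRank ops (pw X n)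

/-- The Tate conjecture for `X`: every Tate class is a linear combination of the classes of
algebraic cycles. -/
def TateConj (G : GaloisAction W Γ) (X : 𝒱.Obj) : Prop :=
  ∀ j c, IsTate G X j c → c ∈ spanCycles W X j

/-- All Tate classes on the powers of `X` are linear combinations of the classes of algebraic
cycles and of the images, under algebraic correspondences, of the `r` Tate classes `c i` on powers
of `X`. -/
def GeneratedBy (G : GaloisAction W Γ) (X : 𝒱.Obj) {r : ℕ} (c : Fin r → Σ m, W.H (pw X m)) :
    Prop :=
  (∀ i, ∃ j, IsTate G (pw X (c i).1) j (c i).2) ∧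
    ∀ n j z, IsTate G (pw X n) j z → z ∈ genBy W X c n

end Pool.Agent.Q55
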