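import Pool.Agent.Y133.Half.DDefs
import Pool.Agent.H914R2.KDefs

/-!
# The standard conjectures B, C, D for all powers of a variety: definitions
-/

open CategoryTheory AlgebraicGeometry

universe u v

namespace Pool.Agent.Q55

open Pool.Agent.H914 Pool.Agent.H914.VarClass Pool.Agent.H914.VarClass.Obj
  Pool.Agent.H914.WeilCohomology Pool.Agent.Y133.Half

variable {k : Type u} [Field k] {𝒱 : VarClass k} {ops : CycleOps 𝒱}

/-- The sum of the pull-backs of the divisor `D` on `X` under the projections of the product
`pw X n` of `n + 1` copies of `X`. -/
noncomputable def pwDiv (ops : CycleOps 𝒱) {X : 𝒱.Obj} (D : X.Cycles) : ∀ n, (pw X n).Cycles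
  | 0 => D
  | n + 1 => ops.pull (fst (pw X n) X) (pwDiv ops D n) + ops.pull (snd (pw X n) X) D

/-- The standard conjectures B (for all divisors which satisfy hard Lefschetz) and D hold for `Y`,
and the standard conjecture C follows from B: the Lambda-operators of all divisors on `Y` which
satisfy hard Lefschetz and the Kunneth projectors are algebraic if there is such a divisor, and
homological and numerical equivalence agree. -/
def StandardBCD (W : WeilCohomology.{u, v} ops) (Y : 𝒱.Obj) : Prop :=
  HomEqNum W Y ∧ ∀ E : Y.Cycles, Y.IsCyc 1 E → HardLefschetz W Y E →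
    LefschetzB W Y E ∧ KunnethStd W Y

end Pool.Agent.Q55
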