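import Pool.Agent.Y133.Half.DLaw
import Pool.Agent.Y133.Half.Index
import Pool.Agent.H447R3.DegB
import Pool.Agent.H447R3.NcB
import Pool.Agent.W552.Fr
import Pool.Agent.Q55.ZeroOneDefs

/-!
# The standard conjectures B, C and D for all powers of a variety, or for almost none of the classes
-/

open CategoryTheory AlgebraicGeometry Filter Topology

universe u v

namespace Pool.Agent.Q55

open Pool.Agent.H914 Pool.Agent.H914.VarClass Pool.Agent.H914.VarClass.Obj
  Pool.Agent.H914.WeilCohomology Pool.Agent.H447 Pool.Agent.Y133.Half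

variable {k : Type u} [Field k] {𝒱 : VarClass k} {ops : CycleOps 𝒱}
  {W : WeilCohomology.{u, v} ops} {X : 𝒱.Obj}

lemma homEqNum_square_pw (h : ∀ n, HomEqNum W (pw X n)) (n : ℕ) :
    HomEqNum W ((pw X n).prod (pw X n)) :=
  (homEqNum_iso (pwAdd X n n)).2 (h _)

lemma lefschetzB_of_square {Y : 𝒱.Obj} {D : Y.Cycles} (hD : Y.IsCyc 1 D)
    (hHL : HardLefschetz W Y D) (h : HomEqNum W (Y.prod Y)) : LefschetzB W Y D := by
  have h1 := (d_tfae (W := W) hD hHL).out 0 2
  exact (h1.1 h).2

lemma kunneth_of_lefschetzB {Y : 𝒱.Obj} {D : Y.Cycles} (hD : Y.IsCyc 1 D)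
    (hHL : HardLefschetz W Y D) (h : LefschetzB W Y D) : KunnethStd W Y := by
  have h1 := (central_tfae (W := W) hD hHL).out 0 1
  exact (h1.1 h).1

/-- **The zero-one law.** -/
theorem zero_one (W : WeilCohomology.{u, v} ops) (X : 𝒱.Obj) :
    (∀ n, StandardBCD W (pw X n)) ∨
      Tendsto (fun n => (cycRank ops (pw X n) : ℝ) / algDim W (pw X n)) atTop (𝓝 0) := by
  rcases d_law W X with h | h
  · left
    intro n
    refine ⟨h n, fun E hE hHL => ?_⟩
    have hB := lefschetzB_of_square hE hHL (homEqNum_square_pw h n)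
    exact ⟨hB, kunneth_of_lefschetzB hE hHL hB⟩
  · exact Or.inr h

/-- Powers carry an algebraic lowering operator. -/
lemma exists_fr_pw {D : X.Cycles} (hD : X.IsCyc 1 D) (hHL : HardLefschetz W X D)
    (hB : LefschetzB W X D) : ∀ n, ∃ f, Pool.Agent.W552.Fr W (pw X n) (pwDiv ops D n) f
  | 0 => by
    obtain ⟨f, hf, -⟩ := Pool.Agent.W552.exists_fr hD hHL hB
    exact ⟨f, hf⟩
  | n + 1 => by
    obtain ⟨f, hf⟩ := exists_fr_pw hD hHL hB n
    obtain ⟨g, hg, -⟩ := Pool.Agent.W552.exists_fr hD hHL hB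
    exact ⟨_, hf.prod hg⟩

/-- The Hodge index theorem and an algebraic lowering operator imply the conjecture D. -/
lemma homEqNum_of_fr {Y : 𝒱.Obj} {D : Y.Cycles} {f : Module.End W.K (W.H Y)}
    (F : Pool.Agent.W552.Fr W Y D f) (hH : HodgeType W Y D) : HomEqNum W Y := by
  intro j hj z hz hnum
  by_contra h0
  have hza : W.cl Y z ∈ algClasses W Y j := ⟨z, hz, rfl⟩
  obtain ⟨q, hq, hq'⟩ := F.bf_pos hH (Pool.Agent.W552.AS.of hza) h0
  rw [Pool.Agent.W552.bf_apply, Pool.Agent.W552.st_apply (W.cl_mem hz)] at hq'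
  obtain ⟨w, hw, hw'⟩ := F.w_alg hj hza
  rw [← hw', mul_smul_comm, map_smul, tr_mul_cl hz hw (by omega), hnum w hw, Rat.cast_zero,
    smul_zero] at hq'
  have : (q : W.K) ≠ 0 := by exact_mod_cast hq.ne'
  exact this hq'.symm

theorem hodge_case [Nontrivial (W.H X)] {D : X.Cycles} (hD : X.IsCyc 1 D)
    (hHL : HardLefschetz W X D) (hH : ∀ n, HodgeType W (pw X n) (pwDiv ops D n)) :
    List.TFAE [LefschetzB W X D, ∀ n, StandardBCD W (pw X n),
      ∀ n, cycRank ops (pw X n) = algDim W (pw X n),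
      ¬ Tendsto (fun n => (cycRank ops (pw X n) : ℝ) / algDim W (pw X n)) atTop (𝓝 0)] := by
  tfae_have 1 → 3 := by
    intro hB n
    obtain ⟨f, F⟩ := exists_fr_pw hD hHL hB n
    rw [algDim_eq]
    exact (homEqNum_iff' _).1 (homEqNum_of_fr F (hH n))
  tfae_have 3 → 4 := by
    intro h h0
    have h1 : ∀ n, 0 < algDim W (pw X n) := by
      intro n
      rw [algDim_eq]
      have : Nontrivial (W.H (pw X n)) := by
        apply Module.nontrivial_of_finrank_pos (R := W.K)
        rw [finrank_pw]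
        exact Nat.pow_pos Module.finrank_pos
      rw [Nat.pos_iff_ne_zero, Ne, Submodule.finrank_eq_zero]
      intro h2
      have h3 : (1 : W.H (pw X n)) ∈ Pool.Agent.H281R3.HT.algSpan W (pw X n) :=
        (algSys W).one _
      rw [h2, Submodule.mem_bot] at h3
      exact one_ne_zero h3
    have h2 : (fun n => (cycRank ops (pw X n) : ℝ) / algDim W (pw X n)) = fun _ => 1 := by
      funext n
      rw [h n]
      exact div_self (by exact_mod_cast (h1 n).ne')
    rw [h2] at h0
    exact one_ne_zero (tendsto_nhds_unique tendsto_const_nhds h0)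
  tfae_have 4 → 2 := by
    intro h
    exact (zero_one W X).resolve_right h
  tfae_have 2 → 1 := fun h => ((h 0).2 D hD hHL).1
  tfae_finish

end Pool.Agent.Q55
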