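import Pool.Agent.Q55.GaloisDefs
import Pool.Agent.Q55.ZeroOne
import Pool.Agent.Y133.Half.PredSys

/-!
# The index of the Tate classes for actions of Galois groups
-/

open CategoryTheory AlgebraicGeometry Filter Topology

open scoped ENNReal

universe u v w

namespace Pool.Agent.Q55

open Pool.Agent.H914 Pool.Agent.H914.VarClass Pool.Agent.H914.VarClass.Obj
  Pool.Agent.H914.WeilCohomology Pool.Agent.Y133.Half

variable {k : Type u} [Field k] {𝒱 : VarClass k} {ops : CycleOps 𝒱}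
  {W : WeilCohomology.{u, v} ops} {Γ : Type w} [Group Γ] {X Y : 𝒱.Obj}

/-- The push-forward is compatible with the action up to a twist. -/
lemma push_act (G : GaloisAction W Γ) (f : X ⟶ Y) : ∃ Δ : Subgroup Γ, Δ.FiniteIndex ∧
    ∀ g ∈ Δ, g ∈ (G.ρ X).dom → g ∈ (G.ρ Y).dom → ∀ a : W.H X,
      (G.χ g : W.K) ^ X.dim • (G.ρ Y).act g (W.push f a) =
        (G.χ g : W.K) ^ Y.dim • W.push f ((G.ρ X).act g a) := by
  obtain ⟨Δ, hΔ, h⟩ := G.map_act f
  refine ⟨Δ, hΔ, fun g hg hX hY a => ?_⟩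
  apply W.tr_ext
  intro b
  obtain ⟨b, rfl⟩ := ((G.ρ Y).act g).surjective b
  rw [smul_mul_assoc, smul_mul_assoc, map_smul, map_smul, ← map_mul, (G.isGalois Y).tr_act g hY,
    W.tr_push, W.tr_push, h g hg hX hY, ← map_mul, (G.isGalois X).tr_act g hX, smul_eq_mul,
    smul_eq_mul]
  ring

/-- The Tate classes as a property of homogeneous classes. -/
noncomputable def tatePred (G : GaloisAction W Γ) : ClassPred W where
  P X j c := IsTate G X j c
  gr h := h.1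
  zero := ⟨Submodule.zero_mem _, ⊤, inferInstance, fun g _ h => by rw [map_zero, smul_zero]⟩
  add := by
    rintro X j a b ⟨ha, Δ, hΔ, h⟩ ⟨hb, Δ', hΔ', h'⟩
    refine ⟨Submodule.add_mem _ ha hb, Δ ⊓ Δ', inferInstance, fun g hg hX => ?_⟩
    rw [map_add, h g hg.1 hX, h' g hg.2 hX, smul_add]
  smul := by
    rintro X j r a ⟨ha, Δ, hΔ, h⟩
    refine ⟨Submodule.smul_mem _ _ ha, Δ, hΔ, fun g hg hX => ?_⟩
    rw [map_smul, h g hg hX, smul_comm]
  cl := by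
    intro X j z hz
    exact ⟨W.cl_mem hz, G.cl_act X j z hz⟩
  mul := by
    rintro X i j a b ⟨ha, Δ, hΔ, h⟩ ⟨hb, Δ', hΔ', h'⟩
    refine ⟨?_, Δ ⊓ Δ', inferInstance, fun g hg hX => ?_⟩
    · rw [mul_add]
      exact W.mul_mem ha hb
    · rw [map_mul, h g hg.1 hX, h' g hg.2 hX, smul_mul_smul_comm, ← pow_add]
  map := by
    rintro X Y f j a ⟨ha, Δ, hΔ, h⟩
    obtain ⟨Δ', hΔ', h'⟩ := G.map_act f
    have := (G.isGalois Y).finiteIndex
    refine ⟨W.map_mem f ha, Δ ⊓ Δ' ⊓ (G.ρ Y).dom, inferInstance, fun g hg hX => ?_⟩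
    rw [← h' g hg.1.2 hX hg.2, h g hg.1.1 hg.2, map_smul]
  push := by
    rintro X Y f j l hl a ⟨ha, Δ, hΔ, h⟩
    obtain ⟨Δ', hΔ', h'⟩ := push_act G f
    have := (G.isGalois X).finiteIndex
    refine ⟨?_, Δ ⊓ Δ' ⊓ (G.ρ X).dom, inferInstance, fun g hg hY => ?_⟩
    · have h1 := W.push_mem f ha
      rwa [show ((2 * j : ℕ) : ℤ) + 2 * ((Y.dim : ℤ) - X.dim) = ((2 * l : ℕ) : ℤ) by
        omega, grZ_natCast] at h1
    · have h2 := h' g hg.1.2 hg.2 hY a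
      rw [h g hg.1.1 hg.2, map_smul, smul_smul, ← pow_add] at h2
      have h3 : (G.χ g : W.K) ^ X.dim ≠ 0 := pow_ne_zero _ (Units.ne_zero _)
      rw [show Y.dim + j = X.dim + l by omega, pow_add, ← smul_smul] at h2
      exact smul_right_injective _ h3 h2

/-- The conjecture D for all powers implies B and C for all powers. -/
lemma bcd_of_homEqNum (h : ∀ n, HomEqNum W (Pool.Agent.Y129.pw X n)) (n : ℕ) :
    StandardBCD W (Pool.Agent.Y129.pw X n) := by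
  refine ⟨h n, fun E hE hHL => ?_⟩
  have h1 : ∀ n, HomEqNum W (pw X n) := fun n => (homEqNum_iso (pwIso129 X n)).1 (h n)
  have h2 : HomEqNum W ((Pool.Agent.Y129.pw X n).prod (Pool.Agent.Y129.pw X n)) :=
    (homEqNum_iso (prodCongr (pwIso129 X n) (pwIso129 X n))).2 (homEqNum_square_pw h1 n)
  have hB := lefschetzB_of_square hE hHL h2
  exact ⟨hB, kunneth_of_lefschetzB hE hHL hB⟩

/-- **The index of the Tate classes.** -/
theorem tate_index (G : GaloisAction W Γ) (X : 𝒱.Obj) [Nontrivial (W.H X)] :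
    ∃ N : ℕ∞, 1 ≤ N ∧
      Tendsto (tateRatio G X) atTop (𝓝 (N : ℝ≥0∞)) ∧
      (∀ n, tateRatio G X (2 * n + 1) ≤ (N : ℝ≥0∞)) ∧
      (N = 1 ↔ ∀ n, TateConj G (Pool.Agent.Y129.pw X n) ∧
        HomEqNum W (Pool.Agent.Y129.pw X n)) ∧
      (N ≠ ⊤ → (∀ n, StandardBCD W (Pool.Agent.Y129.pw X n)) ∧
        ∃ (r : ℕ) (c : Fin r → Σ m, W.H (Pool.Agent.Y129.pw X m)), (r : ℕ∞) + 1 ≤ N ∧
          GeneratedBy G X c) := by
  obtain ⟨N, h1, h2, h3, h4, h5⟩ := (tatePred G).index X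
  refine ⟨N, h1, h2, h3, h4, fun hN => ⟨bcd_of_homEqNum (h5 hN).1, ?_⟩⟩
  obtain ⟨r, c, hr, hc, hg⟩ := (h5 hN).2
  exact ⟨r, c, hr, hc, hg⟩

end Pool.Agent.Q55
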