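import Pool.Agent.Q55.MotivatedDefs
import Pool.Agent.Q55.Galois

/-!
# The index of the motivated classes
-/

open CategoryTheory AlgebraicGeometry Filter Topology

open scoped ENNReal

universe u v

namespace Pool.Agent.Q55

open Pool.Agent.H914 Pool.Agent.H914.VarClass Pool.Agent.H914.VarClass.Obj
  Pool.Agent.H914.WeilCohomology Pool.Agent.H447 Pool.Agent.Y133.Half

variable {k : Type u} [Field k] {𝒱 : VarClass k} {ops : CycleOps 𝒱}
  {W : WeilCohomology.{u, v} ops} {X Y : 𝒱.Obj}

lemma Motivated.gr {j : ℕ} {c : W.H X} (h : Motivated W X j c) : c ∈ W.gr X (2 * j) := by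
  induction h with
  | cl hz => exact W.cl_mem hz
  | lambda hD hHL hc => exact hc.1
  | add _ _ ha hb => exact Submodule.add_mem _ ha hb
  | smul r _ ha => exact Submodule.smul_mem _ _ ha
  | mul _ _ ha hb => rw [mul_add]; exact W.mul_mem ha hb
  | pull f _ ha => exact W.map_mem f ha
  | @push X Y f j l a hl _ ha =>
    have h1 := W.push_mem f ha
    rwa [show ((2 * j : ℕ) : ℤ) + 2 * ((Y.dim : ℤ) - X.dim) = ((2 * l : ℕ) : ℤ) by
      omega, grZ_natCast] at h1

lemma Motivated.zero (X : 𝒱.Obj) (j : ℕ) : Motivated W X j 0 := by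
  have h := Motivated.cl (W := W) (SmVar.IsCyc.zero X.V j)
  rwa [map_zero] at h

/-- The motivated classes as a property of homogeneous classes. -/
noncomputable def motPred (W : WeilCohomology.{u, v} ops) : ClassPred W where
  P X j c := Motivated W X j c
  gr h := h.gr
  zero := Motivated.zero _ _
  add := Motivated.add
  smul := Motivated.smul
  cl := Motivated.cl
  mul := Motivated.mul
  map := Motivated.pull
  push f _ _ hl _ ha := Motivated.push f hl ha

section Lam

variable {K V : Type*} [Field K] [AddCommGroup V] [Module K V] {gr : ℕ → Submodule K V} {n : ℕ}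
  {L Lam Lam' : Module.End K V}

lemma isLam_apply (hLam : IsLam gr n L Lam) {i : ℕ} (hi : i ≤ n) {a : V} (ha : a ∈ gr i)
    (hp : (L ^ (n - i + 1)) a = 0) (j : ℕ) : Lam ((L ^ j) a) =
      if j = 0 then 0 else if j ≤ n - i then (L ^ (j - 1)) a else 0 := by
  by_cases h0 : j = 0
  · subst h0
    rw [if_pos rfl, pow_zero, Module.End.one_apply]
    exact (hLam i hi a ha hp).1
  rw [if_neg h0]
  by_cases hj : j ≤ n - i
  · rw [if_pos hj]
    have := (hLam i hi a ha hp).2 (j - 1) (by omega)
    rwa [show j - 1 + 1 = j by omega] at this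
  · rw [if_neg hj, L_pow_gt hp (by omega), map_zero]

/-- The Lambda-operator is unique. -/
lemma isLam_unique (h : DirectSum.IsInternal gr) (hL : IsHom gr 2 L)
    (hbd : ∀ i, 2 * n + 1 ≤ i → gr i = ⊥) (hHL : HardLef gr n L) (h1 : IsLam gr n L Lam)
    (h2 : IsLam gr n L Lam') : Lam = Lam' := by
  apply LinearMap.ext
  intro a
  refine lef_induction' h hL hbd hHL (p := fun a => Lam a = Lam' a) ?_ ?_ a
  · intro a b ha hb
    rw [map_add, map_add, ha, hb]
  · intro i hi a ha hp j
    rw [isLam_apply h1 hi ha hp, isLam_apply h2 hi ha hp]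

end Lam

/-- If B holds for all varieties, the motivated classes are algebraic. -/
lemma motivated_alg (hB : AllLefschetzB W) {j : ℕ} {c : W.H X} (h : Motivated W X j c) :
    c ∈ Pool.Agent.H281R3.HT.algSpan W X := by
  induction h with
  | @cl X j z hz => exact Submodule.subset_span (Set.mem_iUnion.2 ⟨j, z, hz, rfl⟩)
  | @lambda X D c hD hHL hc =>
    obtain ⟨z, hz, hz'⟩ := hB X D hD hHL
    have hLh : IsHom (W.gr X) 2 (LinearMap.mulLeft W.K (W.cl X D)) := by
      simpa using rop_opAlg.hom (rop_mulLeft (W := W) hD)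
    have h1 : c = W.cl _ z := by
      rw [← sub_eq_zero]
      apply corr_inj (W := W)
      rw [show W.corr (c - W.cl _ z) = W.corr c - W.corr (W.cl _ z) from map_sub (corrL W X X) _ _,
        sub_eq_zero]
      exact isLam_unique (W.isInternal X) hLh W_hbd hHL hc.2 hz'
    rw [h1]
    exact Submodule.subset_span (Set.mem_iUnion.2 ⟨X.dim - 1, z, hz, rfl⟩)
  | add _ _ ha hb => exact Submodule.add_mem _ ha hb
  | smul r _ ha => exact Submodule.smul_mem _ _ ha
  | mul _ _ ha hb => exact (algSys W).mul ha hb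
  | pull f _ ha => exact (algSys W).map f ha
  | push f _ _ ha => exact (algSys W).push f ha

/-- The properties of the index of the motivated classes on the powers of `X`. -/
theorem mot_index (W : WeilCohomology.{u, v} ops) (X : 𝒱.Obj) [Nontrivial (W.H X)] :
    ∃ N : ℕ∞, IsMotIndex W X N := by
  obtain ⟨N, h1, h2, h3, h4, h5⟩ := (motPred W).index X
  refine ⟨N, h1, h2, h3, h4, fun hN => ⟨bcd_of_homEqNum (h5 hN).1, ?_⟩⟩
  obtain ⟨r, c, hr, hc, hg⟩ := (h5 hN).2
  exact ⟨r, c, hr, hc, hg⟩

theorem mot_main (W : WeilCohomology.{u, v} ops) (hne : ∀ X, Nontrivial (W.H X)) :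
    ∃ N : 𝒱.Obj → ℕ∞, (∀ X, IsMotIndex W X (N X)) ∧
      ((AllLefschetzB W ∧ ∀ X, HomEqNum W X) ↔ ∀ X, N X = 1) := by
  choose N hN using fun X => (have := hne X; mot_index W X)
  refine ⟨N, hN, ?_, ?_⟩
  · rintro ⟨hB, hD⟩ X
    exact (hN X).one_iff.2 fun n => ⟨fun j c hc => spanCycles_of_algSpan
      (motivated_alg hB hc) hc.gr, hD _⟩
  · intro h
    have h1 : ∀ X, StandardBCD W X := fun X =>
      ((hN X).of_finite (by rw [h X]; exact ENat.one_ne_top)).1 0
    exact ⟨fun X D hD hHL => ((h1 X).2 D hD hHL).1, fun X => (h1 X).1⟩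

end Pool.Agent.Q55
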