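import Pool.Agent.Q55.ZeroOneDefs
import Pool.Agent.Y129.GDefs

/-!
# Motivated classes: definitions
-/

open CategoryTheory AlgebraicGeometry Filter Topology

open scoped ENNReal

universe u v

namespace Pool.Agent.Q55

open Pool.Agent.H914 Pool.Agent.H914.VarClass Pool.Agent.H914.VarClass.Obj
  Pool.Agent.H914.WeilCohomology
open Pool.Agent.Y133.Half (cycRank dimOf)
open Pool.Agent.Y129 (pw genBy)

variable {k : Type u} [Field k] {𝒱 : VarClass k} {ops : CycleOps 𝒱}

/-- The class `c` on `X × X` is the class of the operator `Λ` of the divisor `D` on `X`. -/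
def IsLambdaClass (W : WeilCohomology.{u, v} ops) (X : 𝒱.Obj) (D : X.Cycles)
    (c : W.H (X.prod X)) : Prop :=
  c ∈ W.gr (X.prod X) (2 * (X.dim - 1)) ∧
    IsLam (W.gr X) X.dim (LinearMap.mulLeft W.K (W.cl X D)) (W.corr c)

/-- The motivated classes (with coefficients in the field of coefficients of the cohomology): the
smallest family of spaces of classes of degree `2 j` on all varieties which contains the classes of
algebraic cycles and the classes of the operators `Λ` of all divisors which satisfy hard
Lefschetz, and which is stable under products, pull-backs and push-forwards. -/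
inductive Motivated (W : WeilCohomology.{u, v} ops) : ∀ X : 𝒱.Obj, ℕ → W.H X → Prop
  | cl {X : 𝒱.Obj} {j : ℕ} {z : X.Cycles} : X.IsCyc j z → Motivated W X j (W.cl X z)
  | lambda {X : 𝒱.Obj} {D : X.Cycles} {c : W.H (X.prod X)} : X.IsCyc 1 D →
      HardLefschetz W X D → IsLambdaClass W X D c → Motivated W (X.prod X) (X.dim - 1) c
  | add {X : 𝒱.Obj} {j : ℕ} {a b : W.H X} : Motivated W X j a → Motivated W X j b →
      Motivated W X j (a + b)
  | smul {X : 𝒱.Obj} {j : ℕ} (r : W.K) {a : W.H X} : Motivated W X j a →
      Motivated W X j (r • a)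
  | mul {X : 𝒱.Obj} {i j : ℕ} {a b : W.H X} : Motivated W X i a → Motivated W X j b →
      Motivated W X (i + j) (a * b)
  | pull {X Y : 𝒱.Obj} (f : X ⟶ Y) {j : ℕ} {a : W.H Y} : Motivated W Y j a →
      Motivated W X j (W.map f a)
  | push {X Y : 𝒱.Obj} (f : X ⟶ Y) {j l : ℕ} {a : W.H X} : l + X.dim = j + Y.dim →
      Motivated W X j a → Motivated W Y l (W.push f a)

/-- The dimension of the space spanned by the motivated classes of all degrees on `X`. -/
noncomputable def motDim (W : WeilCohomology.{u, v} ops) (X : 𝒱.Obj) : ℕ :=
  dimOf W {c | ∃ j, Motivated W X j c}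

/-- The quotient of the dimension of the space of the motivated classes on the product of `n + 1`
copies of `X` and of the rank of the group of the cycles on it modulo numerical equivalence. -/
noncomputable def motRatio (W : WeilCohomology.{u, v} ops) (X : 𝒱.Obj) (n : ℕ) : ℝ≥0∞ :=
  (motDim W (pw X n) : ℝ≥0∞) / cycRank ops (pw X n)

/-- Every motivated class on `X` is a linear combination of the classes of algebraic cycles. -/
def MotivatedAlgebraic (W : WeilCohomology.{u, v} ops) (X : 𝒱.Obj) : Prop :=
  ∀ j c, Motivated W X j c → c ∈ spanCycles W X j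

/-- All motivated classes on the powers of `X` are linear combinations of the classes of algebraic
cycles and of the images, under algebraic correspondences, of the `r` motivated classes `c i` on
powers of `X`. -/
def MotGeneratedBy (W : WeilCohomology.{u, v} ops) (X : 𝒱.Obj) {r : ℕ}
    (c : Fin r → Σ m, W.H (pw X m)) : Prop :=
  (∀ i, ∃ j, Motivated W (pw X (c i).1) j (c i).2) ∧
    ∀ n j z, Motivated W (pw X n) j z → z ∈ genBy W X c n

/-- The index `N` of the motivated classes on the powers of `X`: the quotient of the dimension of
the space of the motivated classes on `X ^ n` and of the rank of the group of the cycles on `X ^ n`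
modulo numerical equivalence tends to `N`, and is at most `N` for even `n`; `N = 1` if and only if
all motivated classes on all powers of `X` are algebraic and homological and numerical equivalence
agree for all powers; and if `N` is finite, then the conjectures B, C, D hold for all powers of
`X`, and all motivated classes on them are generated under algebraic correspondences by the classes
of cycles and at most `N - 1` motivated classes. -/
structure IsMotIndex (W : WeilCohomology.{u, v} ops) (X : 𝒱.Obj) (N : ℕ∞) : Prop where
  one_le : 1 ≤ N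
  tendsto : Tendsto (motRatio W X) atTop (𝓝 (N : ℝ≥0∞))
  le : ∀ n, motRatio W X (2 * n + 1) ≤ (N : ℝ≥0∞)
  one_iff : N = 1 ↔ ∀ n, MotivatedAlgebraic W (pw X n) ∧ HomEqNum W (pw X n)
  of_finite : N ≠ ⊤ → (∀ n, StandardBCD W (pw X n)) ∧
    ∃ (r : ℕ) (c : Fin r → Σ m, W.H (pw X m)), (r : ℕ∞) + 1 ≤ N ∧ MotGeneratedBy W X c

/-- The Lefschetz standard conjecture for all varieties and all divisors which satisfy hard
Lefschetz. -/
def AllLefschetzB (W : WeilCohomology.{u, v} ops) : Prop :=
  ∀ (X : 𝒱.Obj) (D : X.Cycles), X.IsCyc 1 D → HardLefschetz W X D → LefschetzB W X D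

end Pool.Agent.Q55
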